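import Pool.Agent.Helper69.CN.Nest
import Pool.Agent.Helper69.CN.Pisot

set_option autoImplicit false

namespace Pool.Agent.Results.MP_45c8b2_nt.AboveOne

open Pool.Agent.Helper69.CN

theorem result :
    ∀ ε : ℝ, 1 < ε → ∃ M : ℝ, ∀ x : ℝ, M ≤ x → ∀ c : ℝ, 0 < c → c + ε / x < 1 →
      ∃ α : ℝ, x ≤ α ∧ α ≤ x + 2 ∧
        ¬ (IsIntegral ℤ α ∧ 1 < α ∧
          ∀ z : ℂ, z ≠ (α : ℂ) → Polynomial.aeval z (minpoly ℤ α) = 0 → ‖z‖ < 1) ∧
        ∀ n : ℕ, 1 ≤ n → c ≤ Int.fract (α ^ n) ∧ Int.fract (α ^ n) ≤ c + ε / α := by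
  intro ε hε
  refine ⟨max (ε + 2) ((2 + 2 * ε) / (ε - 1)), ?_⟩
  intro x hx c hc hc1
  have hx1 : ε + 2 ≤ x := le_trans (le_max_left _ _) hx
  have hx2 : (2 + 2 * ε) / (ε - 1) ≤ x := le_trans (le_max_right _ _) hx
  have hx0 : 0 < x := by linarith
  have hxx : 0 < x + 2 := by linarith
  rw [div_le_iff₀ (by linarith)] at hx2
  have hδlt : ε / (x + 2) < ε / x := div_lt_div_of_pos_left (by linarith) hx0 (by linarith)
  obtain ⟨α, h1, h2, h3⟩ := nest (x := x) (c := c) (δ := ε / (x + 2)) (by linarith)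
    (by positivity) (by rw [div_le_one hxx]; linarith)
    (by
      have e : x * (ε / (x + 2)) = (x * ε) / (x + 2) := by ring
      rw [e, ← sub_nonneg]
      have e2 : x * ε / (x + 2) - (1 + ε / (x + 2)) = (x * ε - (x + 2) - ε) / (x + 2) := by
        field_simp; ring
      rw [e2]
      apply div_nonneg _ hxx.le
      nlinarith) hc.le (by linarith)
  have hα0 : 0 < α := by linarith
  refine ⟨α, h1, h2, ?_, ?_⟩
  · intro hP
    have hP' : IsPisot α := hP
    obtain ⟨n, hn, hn2⟩ := pisot_far hP' (a := min c (1 - (c + ε / (x + 2))))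
      (lt_min hc (by linarith))
    obtain ⟨h4, h5⟩ := h3 n hn
    rcases hn2 with h | h
    · have := min_le_left c (1 - (c + ε / (x + 2)))
      linarith
    · have := min_le_right c (1 - (c + ε / (x + 2)))
      linarith
  · intro n hn
    obtain ⟨h4, h5⟩ := h3 n hn
    refine ⟨h4, le_trans h5 ?_⟩
    have : ε / (x + 2) ≤ ε / α := div_le_div_of_nonneg_left (by linarith) hα0 h2
    linarith

end Pool.Agent.Results.MP_45c8b2_nt.AboveOne
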