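import Mathlib

/-!
# Confined powers whose fractional parts come close to an integer
-/

set_option autoImplicit false

namespace Pool.Agent.Results.MP_45c8b2_nt.InteriorWindows

/-- One step: the distance of the powers grows at most by the factor `A + B`. -/
lemma step_up {A B : ℝ} (hB : 0 ≤ B) (hAB : B ≤ A) (n : ℕ) (hn : 1 ≤ n) :
    A ^ (n + 1) - B ^ (n + 1) ≤ (A + B) * (A ^ n - B ^ n) := by
  obtain ⟨k, rfl⟩ : ∃ k, n = k + 1 := ⟨n - 1, by omega⟩
  have hp : B ^ k ≤ A ^ k := pow_le_pow_left₀ hB hAB k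
  have hA : 0 ≤ A := hB.trans hAB
  have h2 : 0 ≤ A * B * (A ^ k - B ^ k) := mul_nonneg (mul_nonneg hA hB) (by linarith)
  have h3 : (A + B) * (A ^ (k + 1) - B ^ (k + 1)) =
      A ^ (k + 1 + 1) - B ^ (k + 1 + 1) + A * B * (A ^ k - B ^ k) := by ring
  linarith

/-- One step: the distance of the powers at least doubles. -/
lemma step_down {A B : ℝ} (hB : 2 ≤ B) (hAB : B ≤ A) (n : ℕ) :
    2 * (A ^ n - B ^ n) ≤ A ^ (n + 1) - B ^ (n + 1) := by
  have hp : B ^ n ≤ A ^ n := pow_le_pow_left₀ (by linarith) hAB n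
  have hBn : 0 ≤ B ^ n := pow_nonneg (by linarith) n
  have h1 : B ^ n * (B - 2) ≤ A ^ n * (A - 2) :=
    mul_le_mul hp (by linarith) (by linarith) (hBn.trans hp)
  have h2 : A ^ (n + 1) - B ^ (n + 1) - 2 * (A ^ n - B ^ n) =
      A ^ n * (A - 2) - B ^ n * (B - 2) := by ring
  linarith

lemma two_pow_le {A B : ℝ} (hB : 2 ≤ B) (hAB : B ≤ A) (n : ℕ) :
    2 ^ n * (A - B) ≤ A ^ (n + 1) - B ^ (n + 1) := by
  induction n with
  | zero => simp
  | succ k ih =>
    have := step_down hB hAB (k + 1)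
    rw [pow_succ]
    nlinarith

/-- Two numbers `A ≥ B ≥ 2` whose powers stay within bounded distance are equal. -/
lemma eq_of_bdd {A B η : ℝ} (hB : 2 ≤ B) (hAB : B ≤ A)
    (h : ∀ n : ℕ, A ^ (n + 1) - B ^ (n + 1) ≤ η) : A = B := by
  by_contra hne
  have hx : 0 < A - B := by
    rcases lt_or_eq_of_le hAB with h1 | h1
    · linarith
    · exact absurd h1.symm hne
  obtain ⟨n, hn⟩ := pow_unbounded_of_one_lt (η / (A - B)) (one_lt_two : (1 : ℝ) < 2)
  have h1 := two_pow_le hB hAB n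
  have h2 := h n
  rw [div_lt_iff₀ hx] at hn
  linarith

lemma abs_pow_sub {A B : ℝ} (hB : 0 ≤ B) (hAB : B ≤ A) (n : ℕ) :
    |A ^ n - B ^ n| = A ^ n - B ^ n :=
  abs_of_nonneg (by linarith [pow_le_pow_left₀ hB hAB n])

/-- A fraction `m / q` all of whose powers are multiples of `1 / q` is an integer. -/
lemma int_of_powers {m : ℤ} {q : ℕ} (hq : 1 ≤ q)
    (h : ∀ n : ℕ, ∃ j : ℤ, ((m : ℝ) / q) ^ (n + 1) = j / q) : ∃ z : ℤ, (m : ℝ) / q = z := by
  have hden : ∀ n : ℕ, ((m : ℚ) / q).den ^ (n + 1) ≤ q := by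
    intro n
    obtain ⟨j, hj⟩ := h n
    have h1 : ((m : ℚ) / q) ^ (n + 1) = (j : ℚ) / ((q : ℤ) : ℚ) := by
      have : ((((m : ℚ) / q) ^ (n + 1) : ℚ) : ℝ) = (((j : ℚ) / ((q : ℤ) : ℚ) : ℚ) : ℝ) := by
        push_cast
        exact hj
      exact_mod_cast this
    have h2 := Rat.den_dvd j (q : ℤ)
    rw [Rat.divInt_eq_div, ← h1, Rat.den_pow] at h2
    exact Nat.le_of_dvd (by omega) (by exact_mod_cast h2)
  have hone : ((m : ℚ) / q).den = 1 := by
    by_contra hne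
    have hpos := ((m : ℚ) / q).den_pos
    have h2 : 2 ≤ ((m : ℚ) / q).den := by omega
    have h3 := hden q
    have h4 : 2 ^ (q + 1) ≤ ((m : ℚ) / q).den ^ (q + 1) := Nat.pow_le_pow_left h2 _
    have h5 : q + 1 < 2 ^ (q + 1) := Nat.lt_two_pow_self
    omega
  refine ⟨((m : ℚ) / q).num, ?_⟩
  have h6 : ((m : ℚ) / q) = (((m : ℚ) / q).num : ℚ) := ((Rat.den_eq_one_iff _).1 hone).symm
  have h7 : ((((m : ℚ) / q) : ℚ) : ℝ) = ((((m : ℚ) / q).num : ℚ) : ℝ) := by rw [← h6]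
  push_cast at h7
  exact h7

/-- If all powers of a large `α` lie within `ε / α`, `2 ε < 1 / q ^ 2`, of multiples of `1 / q`,
then `α` is an integer. -/
lemma near_fractions {ε α : ℝ} {q : ℕ} (hq : 1 ≤ q) (h0 : 0 < ε) (h1 : 2 * ε < 1 / (q : ℝ) ^ 2)
    (hα : 3 + 1 / (1 / (q : ℝ) ^ 2 - 2 * ε) < α)
    (h : ∀ n : ℕ, 1 ≤ n → ∃ k : ℤ, |α ^ n - k / q| ≤ ε / α) : ∃ m : ℕ, α = m := by
  have hq0 : (0 : ℝ) < q := by exact_mod_cast hq
  have hq1 : (1 : ℝ) ≤ q := by exact_mod_cast hq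
  have hq2 : 1 / (q : ℝ) ^ 2 ≤ 1 := by
    rw [div_le_one (by positivity)]; nlinarith
  have hg : 0 < 1 / (q : ℝ) ^ 2 - 2 * ε := by linarith
  have hg' : 0 < 1 / (1 / (q : ℝ) ^ 2 - 2 * ε) := one_div_pos.2 hg
  have hα3 : 3 < α := by linarith
  have hα0 : 0 < α := by linarith
  have hηpos : 0 < ε / α := by positivity
  have hη1 : ε / α < 1 / 6 := by
    rw [div_lt_iff₀ hα0]; linarith
  have hηg : ε / α < (1 / (q : ℝ) ^ 2 - 2 * ε) / 2 := by
    rw [div_lt_iff₀ hα0]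
    have h2 : 1 / (1 / (q : ℝ) ^ 2 - 2 * ε) < α := by linarith
    rw [div_lt_iff₀ hg] at h2
    nlinarith
  have hmul : α * (ε / α) = ε := by field_simp
  obtain ⟨m, hm⟩ := h 1 le_rfl
  rw [pow_one] at hm
  set μ : ℝ := (m : ℝ) / q with hμ
  have hm' := abs_le.1 hm
  have hm2 : 2 < μ := by linarith [hm'.2]
  have hall : ∀ n : ℕ, (∃ j : ℤ, μ ^ (n + 1) = j / q) ∧ |α ^ (n + 1) - μ ^ (n + 1)| ≤ ε / α := by
    intro n
    induction n with
    | zero => exact ⟨⟨m, by simp [hμ]⟩, by simpa using hm⟩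
    | succ n ih =>
      obtain ⟨⟨j, hj⟩, ih⟩ := ih
      have hup : |α ^ (n + 1 + 1) - μ ^ (n + 1 + 1)| ≤
          (α + μ) * |α ^ (n + 1) - μ ^ (n + 1)| := by
        rcases le_total μ α with hle | hle
        · rw [abs_pow_sub (by linarith) hle, abs_pow_sub (by linarith) hle]
          exact step_up (by linarith) hle (n + 1) (by omega)
        · rw [abs_sub_comm, abs_sub_comm (α ^ (n + 1)), abs_pow_sub (by linarith) hle,
            abs_pow_sub (by linarith) hle, add_comm α]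
          exact step_up (by linarith) hle (n + 1) (by omega)
      have hb : (α + μ) * |α ^ (n + 1) - μ ^ (n + 1)| ≤ (α + μ) * (ε / α) :=
        mul_le_mul_of_nonneg_left ih (by linarith)
      have hc : (α + μ) * (ε / α) ≤ 2 * ε + (ε / α) * (ε / α) := by
        have : μ ≤ α + ε / α := by linarith [hm'.1]
        have h5 : μ * (ε / α) ≤ (α + ε / α) * (ε / α) :=
          mul_le_mul_of_nonneg_right this hηpos.le
        nlinarith
      obtain ⟨k, hk⟩ := h (n + 1 + 1) (by omega)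
      have hd : (ε / α) * (ε / α) ≤ (ε / α) * (1 / 6) :=
        mul_le_mul_of_nonneg_left hη1.le hηpos.le
      have hprod : μ ^ (n + 1 + 1) = (m * j : ℝ) / (q : ℝ) ^ 2 := by
        rw [pow_succ, hj, hμ]; field_simp
      have hkm : |((m * j - k * q : ℤ) : ℝ)| < 1 := by
        have h6 : ((m * j - k * q : ℤ) : ℝ) / (q : ℝ) ^ 2 =
            (α ^ (n + 1 + 1) - k / q) - (α ^ (n + 1 + 1) - μ ^ (n + 1 + 1)) := by
          rw [hprod]; push_cast; field_simp; ring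
        have h7 := abs_sub (α ^ (n + 1 + 1) - (k : ℝ) / q) (α ^ (n + 1 + 1) - μ ^ (n + 1 + 1))
        have h8 : |((m * j - k * q : ℤ) : ℝ) / (q : ℝ) ^ 2| < 1 / (q : ℝ) ^ 2 := by
          rw [h6]; linarith
        rw [abs_div, abs_of_pos (by positivity : (0 : ℝ) < (q : ℝ) ^ 2)] at h8
        exact (div_lt_div_iff_of_pos_right (by positivity)).1 h8
      have hz : m * j - k * q = 0 := by
        rw [← Int.abs_lt_one_iff]
        exact_mod_cast hkm
      have hk' : μ ^ (n + 1 + 1) = k / q := by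
        have h9 : (m * j : ℝ) = k * q := by
          have : m * j = k * q := by linarith
          exact_mod_cast this
        rw [hprod, h9]; field_simp
      refine ⟨⟨k, hk'⟩, ?_⟩
      rw [hk']
      exact hk
  have heq : α = μ := by
    rcases le_total μ α with hle | hle
    · refine eq_of_bdd (by linarith) hle (η := ε / α) fun n => ?_
      rw [← abs_pow_sub (by linarith) hle]; exact (hall n).2
    · refine (eq_of_bdd (by linarith) hle (η := ε / α) fun n => ?_).symm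
      rw [← abs_pow_sub (by linarith) hle, abs_sub_comm]; exact (hall n).2
  obtain ⟨z, hz⟩ := int_of_powers hq fun n => (hall n).1
  have hαz : α = z := by rw [heq, hμ, hz]
  have hz0 : 0 ≤ z := by
    have : (0 : ℝ) < z := by linarith
    exact_mod_cast this.le
  refine ⟨z.toNat, ?_⟩
  have : ((z.toNat : ℤ) : ℝ) = z := by rw [Int.toNat_of_nonneg hz0]
  rw [hαz]
  exact_mod_cast this.symm

/-- For `ε + κ < 1 / (2 Q ^ 2)` and `α` large with `(ε / α)`-confined powers: `α` is an integer,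
or all powers of `α` have distance at least `κ / α` from all fractions with denominator at most
`Q`. -/
theorem result :
    ∀ (Q : ℕ) (ε κ : ℝ), 1 ≤ Q → 0 < ε → 0 < κ → ε + κ < 1 / (2 * (Q : ℝ) ^ 2) →
      ∃ M : ℝ, ∀ α : ℝ, M < α →
        (∃ a : ℝ, ∀ n : ℕ, 1 ≤ n → a ≤ Int.fract (α ^ n) ∧ Int.fract (α ^ n) ≤ a + ε / α) →
          (∃ m : ℕ, α = m) ∨
            ∀ n q : ℕ, 1 ≤ n → 1 ≤ q → q ≤ Q → ∀ k : ℤ, κ / α ≤ |α ^ n - k / q| := by
  intro Q ε κ hQ h0 hκ h1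
  have hQ0 : (0 : ℝ) < Q := by exact_mod_cast hQ
  have h1' : 2 * (ε + κ) < 1 / (Q : ℝ) ^ 2 := by
    have : 1 / (2 * (Q : ℝ) ^ 2) = 1 / (Q : ℝ) ^ 2 / 2 := by field_simp
    linarith
  have hg' : 0 < 1 / (1 / (Q : ℝ) ^ 2 - 2 * (ε + κ)) := one_div_pos.2 (by linarith)
  refine ⟨3 + 1 / (1 / (Q : ℝ) ^ 2 - 2 * (ε + κ)), fun α hα ⟨a, ha⟩ => ?_⟩
  have hα0 : 0 < α := by linarith
  have hsum : (ε + κ) / α = ε / α + κ / α := add_div _ _ _
  by_contra hcon
  rw [not_or] at hcon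
  obtain ⟨hint, hcon⟩ := hcon
  simp only [not_forall, not_le] at hcon
  obtain ⟨n₀, q, hn₀, hq, hqQ, k, hk⟩ := hcon
  have hq0 : (0 : ℝ) < q := by exact_mod_cast hq
  have hqQ' : 1 / (Q : ℝ) ^ 2 ≤ 1 / (q : ℝ) ^ 2 := by
    have : (q : ℝ) ≤ Q := by exact_mod_cast hqQ
    exact one_div_le_one_div_of_le (by positivity) (pow_le_pow_left₀ hq0.le this 2)
  refine hint (near_fractions (ε := ε + κ) hq (by linarith) (by linarith) ?_ fun n hn => ?_)
  · refine lt_of_le_of_lt ?_ hα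
    have : 1 / (1 / (q : ℝ) ^ 2 - 2 * (ε + κ)) ≤ 1 / (1 / (Q : ℝ) ^ 2 - 2 * (ε + κ)) :=
      one_div_le_one_div_of_le (by linarith) (by linarith)
    linarith
  · refine ⟨q * ⌊α ^ n⌋ + (k - q * ⌊α ^ n₀⌋), ?_⟩
    have h4 := ha n hn
    have h5 := ha n₀ hn₀
    have h6 : α ^ n - ((q * ⌊α ^ n⌋ + (k - q * ⌊α ^ n₀⌋) : ℤ) : ℝ) / q =
        (Int.fract (α ^ n) - Int.fract (α ^ n₀)) + (α ^ n₀ - k / q) := by
      rw [← Int.self_sub_floor, ← Int.self_sub_floor]
      push_cast; field_simp; ring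
    rw [h6, hsum]
    refine (abs_add_le _ _).trans (add_le_add (abs_le.2 ⟨?_, ?_⟩) hk.le) <;> linarith

end Pool.Agent.Results.MP_45c8b2_nt.InteriorWindows
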