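import Pool.Agent.Helper69.CN.CountC

set_option autoImplicit false

namespace Pool.Agent.Results.MP_45c8b2_nt.Threshold

open Pool.Agent.Helper69.CN

theorem result :
    ∀ ε : ℝ, 0 < ε → ε < 1 → ∃ M C : ℝ, ∀ x : ℝ, M ≤ x →
      (Set.Finite {α : ℝ | x ≤ α ∧ α < x + 1 ∧ ∃ c : ℝ, ∀ n : ℕ, 1 ≤ n →
          c ≤ Int.fract (α ^ n) ∧ Int.fract (α ^ n) ≤ c + ε / α} ∧
        (Set.ncard {α : ℝ | x ≤ α ∧ α < x + 1 ∧ ∃ c : ℝ, ∀ n : ℕ, 1 ≤ n →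
          c ≤ Int.fract (α ^ n) ∧ Int.fract (α ^ n) ≤ c + ε / α} : ℝ) ≤ C * x) ∧
      ∀ c : ℝ, (Set.ncard {α : ℝ | x ≤ α ∧ α < x + 1 ∧ ∀ n : ℕ, 1 ≤ n →
          c ≤ Int.fract (α ^ n) ∧ Int.fract (α ^ n) ≤ c + ε / α} : ℝ) ≤ C := by
  intro ε he0 he1
  refine ⟨40 / (1 - ε), 8 * 9 ^ KK ε, ?_⟩
  intro x hx
  have hg : 0 < 1 - ε := by linarith
  have hx40 : 40 ≤ x := by
    have : (40 : ℝ) ≤ 40 / (1 - ε) := by
      rw [le_div_iff₀ hg]; linarith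
    linarith
  refine ⟨?_, ?_⟩
  · have hfin : Set.Finite {α : ℝ | x ≤ α ∧ α < x + 1 ∧ ∃ c : ℝ, ∀ n : ℕ, 1 ≤ n →
        c ≤ Int.fract (α ^ n) ∧ Int.fract (α ^ n) ≤ c + ε / α} := by
      by_contra hinf
      obtain ⟨k, hk⟩ := exists_nat_gt (6 * 9 ^ KK ε * x)
      obtain ⟨T, hT1, hT2⟩ := Set.Infinite.exists_subset_card_eq hinf k
      have := finset_bound he0 he1 x hx T (fun α hα => by
        obtain ⟨a1, a2, a3⟩ := hT1 (Finset.mem_coe.2 hα)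
        exact ⟨⟨a1, a2⟩, a3⟩)
      rw [hT2] at this
      linarith
    refine ⟨hfin, ?_⟩
    rw [Set.ncard_eq_toFinset_card _ hfin]
    have := finset_bound he0 he1 x hx hfin.toFinset (fun α hα => by
      obtain ⟨a1, a2, a3⟩ := (Set.Finite.mem_toFinset hfin).1 hα
      exact ⟨⟨a1, a2⟩, a3⟩)
    refine le_trans this ?_
    apply mul_le_mul_of_nonneg_right _ (by linarith)
    have : (0 : ℝ) < 9 ^ KK ε := by positivity
    linarith
  · intro c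
    by_cases hfin : Set.Finite {α : ℝ | x ≤ α ∧ α < x + 1 ∧ ∀ n : ℕ, 1 ≤ n →
        c ≤ Int.fract (α ^ n) ∧ Int.fract (α ^ n) ≤ c + ε / α}
    · rw [Set.ncard_eq_toFinset_card _ hfin]
      have := finset_bound_c he0 he1 x hx c hfin.toFinset (fun α hα => by
        obtain ⟨a1, a2, a3⟩ := (Set.Finite.mem_toFinset hfin).1 hα
        exact ⟨⟨a1, a2⟩, a3⟩)
      exact_mod_cast this
    · rw [Set.Infinite.ncard hfin]
      push_cast
      positivity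

end Pool.Agent.Results.MP_45c8b2_nt.Threshold
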